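import Pool.Agent.H31.MKS.Targets
import Pool.Agent.H42.LF.UM
import Pool.Agent.H91.LF.Basic

/-!
Module DSM of the decoupling part of the project GS: decoupling for finitely many means at once.
-/

set_option autoImplicit false

open Finset Filter Topology

namespace Pool.Agent.H1.MKS

open Pool.Agent.H91.LF (Bdd Mean bdd_add bdd_smul bdd_const)
open Pool.Agent.H24.T2 (Pset)
open Pool.Agent.H31.DP (ind StatementDS)
open Pool.Agent.H31.MKS
open Pool.Agent.H42.LF (hyp_le exists_lim)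

variable {D : ℕ}

/-! ### Sums over shifted intervals -/

theorem shift_nat (u : ℤ → ℝ) (C : ℝ) (hu : ∀ k, |u k| ≤ C) (L : ℕ) (s : ℕ) (c : ℤ) :
    |∑ j ∈ range L, u (c + (j : ℤ) + (s : ℤ)) - ∑ j ∈ range L, u (c + (j : ℤ))| ≤
      2 * (s : ℝ) * C := by
  induction s with
  | zero => simp
  | succ s ih =>
    have h1 : ∑ j ∈ range L, u (c + (j : ℤ) + ((s + 1 : ℕ) : ℤ)) -
        ∑ j ∈ range L, u (c + (j : ℤ) + (s : ℤ)) = u (c + (s : ℤ) + (L : ℤ)) - u (c + (s : ℤ)) := by
      have h2 := Finset.sum_range_sub (fun j : ℕ => u (c + (s : ℤ) + (j : ℤ))) L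
      simp only [Nat.cast_zero, add_zero] at h2
      rw [← h2, ← Finset.sum_sub_distrib]
      refine Finset.sum_congr rfl fun j _ => ?_
      have e1 : c + (j : ℤ) + ((s + 1 : ℕ) : ℤ) = c + (s : ℤ) + ((j + 1 : ℕ) : ℤ) := by
        push_cast; ring
      have e2 : c + (j : ℤ) + (s : ℤ) = c + (s : ℤ) + (j : ℤ) := by ring
      rw [e1, e2]
    have h3 : |u (c + (s : ℤ) + (L : ℤ)) - u (c + (s : ℤ))| ≤ 2 * C := by
      have a1 := abs_le.1 (hu (c + (s : ℤ) + (L : ℤ)))
      have a2 := abs_le.1 (hu (c + (s : ℤ)))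
      rw [abs_le]
      constructor <;> linarith [a1.1, a1.2, a2.1, a2.2]
    have h4 : ∑ j ∈ range L, u (c + (j : ℤ) + ((s + 1 : ℕ) : ℤ)) - ∑ j ∈ range L, u (c + (j : ℤ)) =
        (u (c + (s : ℤ) + (L : ℤ)) - u (c + (s : ℤ))) +
        (∑ j ∈ range L, u (c + (j : ℤ) + (s : ℤ)) - ∑ j ∈ range L, u (c + (j : ℤ))) := by
      rw [← h1]; ring
    rw [h4]
    refine (abs_add_le _ _).trans ?_
    push_cast
    linarith

theorem shift_int (u : ℤ → ℝ) (C : ℝ) (hu : ∀ k, |u k| ≤ C) (L : ℕ) (s : ℤ) (c : ℤ) :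
    |∑ j ∈ range L, u (c + (j : ℤ) + s) - ∑ j ∈ range L, u (c + (j : ℤ))| ≤
      2 * |(s : ℝ)| * C := by
  obtain ⟨t, rfl | rfl⟩ := Int.eq_nat_or_neg s
  · have h := shift_nat u C hu L t c
    simpa using h
  · have h := shift_nat u C hu L t (c - t)
    have e1 : ∀ j : ℕ, c - (t : ℤ) + (j : ℤ) + (t : ℤ) = c + (j : ℤ) := fun j => by ring
    have e2 : ∀ j : ℕ, c - (t : ℤ) + (j : ℤ) = c + (j : ℤ) + -(t : ℤ) := fun j => by ring
    simp only [e2] at h
    rw [abs_sub_comm]
    simpa using h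

/-! ### The averages over dyadic intervals -/

/-- The slice of a function. -/
def sl (F : (Fin (D + 1) → ℤ) → ℝ) (k : ℤ) : (Fin D → ℤ) → ℝ :=
  fun w => F (Fin.cons k w : Fin (D + 1) → ℤ)

theorem bdd_sl {F : (Fin (D + 1) → ℤ) → ℝ} (hF : Bdd F) (k : ℤ) : Bdd (sl F k) := by
  obtain ⟨C, hC⟩ := hF
  exact ⟨C, fun w => hC _⟩

/-- The average of the means of the slices over `[2 ^ a, 2 ^ (a + 1))`. -/
noncomputable def bl (M : Mean D) (a : ℕ) (F : (Fin (D + 1) → ℤ) → ℝ) : ℝ :=
  (1 / (2 : ℝ) ^ a) * ∑ j ∈ range (2 ^ a), M.E (sl F (((2 ^ a : ℕ) : ℤ) + (j : ℤ)))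

theorem bl_add (M : Mean D) (a : ℕ) {F G : (Fin (D + 1) → ℤ) → ℝ} (hF : Bdd F) (hG : Bdd G) :
    bl M a (fun ω => F ω + G ω) = bl M a F + bl M a G := by
  unfold bl
  rw [← mul_add, ← Finset.sum_add_distrib]
  congr 1
  refine Finset.sum_congr rfl fun j _ => ?_
  exact M.add _ _ (bdd_sl hF _) (bdd_sl hG _)

theorem bl_smul (M : Mean D) (a : ℕ) (c : ℝ) {F : (Fin (D + 1) → ℤ) → ℝ} (hF : Bdd F) :
    bl M a (fun ω => c * F ω) = c * bl M a F := by
  unfold bl
  have h : ∑ j ∈ range (2 ^ a), M.E (sl (fun ω => c * F ω) (((2 ^ a : ℕ) : ℤ) + (j : ℤ))) =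
      c * ∑ j ∈ range (2 ^ a), M.E (sl F (((2 ^ a : ℕ) : ℤ) + (j : ℤ))) := by
    rw [Finset.mul_sum]
    refine Finset.sum_congr rfl fun j _ => ?_
    exact M.smul c _ (bdd_sl hF _)
  rw [h]
  ring

theorem bl_nonneg (M : Mean D) (a : ℕ) {F : (Fin (D + 1) → ℤ) → ℝ} (hF : Bdd F)
    (h : ∀ ω, 0 ≤ F ω) : 0 ≤ bl M a F := by
  unfold bl
  refine mul_nonneg (by positivity) (Finset.sum_nonneg fun j _ => ?_)
  exact M.nonneg _ (bdd_sl hF _) fun w => h _

theorem bl_const_of (M : Mean D) (a : ℕ) (F : (Fin (D + 1) → ℤ) → ℝ) (f : (Fin D → ℤ) → ℝ)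
    (h : ∀ k : ℤ, ((2 ^ a : ℕ) : ℤ) ≤ k → k < ((2 ^ (a + 1) : ℕ) : ℤ) → sl F k = f) :
    bl M a F = M.E f := by
  unfold bl
  have h1 : ∑ j ∈ range (2 ^ a), M.E (sl F (((2 ^ a : ℕ) : ℤ) + (j : ℤ))) =
      ∑ j ∈ range (2 ^ a), M.E f := by
    refine Finset.sum_congr rfl fun j hj => ?_
    have hj' : j < 2 ^ a := Finset.mem_range.1 hj
    rw [h _ (by omega) (by rw [pow_succ]; push_cast; have : (j : ℤ) < 2 ^ a := by exact_mod_cast hj'
                           linarith)]
  rw [h1, Finset.sum_const, Finset.card_range, nsmul_eq_mul]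
  push_cast
  rw [← mul_assoc, one_div, inv_mul_cancel₀ (by positivity), one_mul]

theorem bl_one (M : Mean D) (a : ℕ) : bl M a (fun _ => 1) = 1 := by
  rw [bl_const_of M a (fun _ => 1) (fun _ => 1) (fun _ _ _ => rfl)]
  exact M.one

theorem abs_bl_le (M : Mean D) (a : ℕ) {F : (Fin (D + 1) → ℤ) → ℝ} {C : ℝ}
    (hF : ∀ ω, |F ω| ≤ C) : |bl M a F| ≤ C := by
  unfold bl
  rw [abs_mul, abs_of_nonneg (by positivity : (0 : ℝ) ≤ 1 / 2 ^ a)]
  have h1 : |∑ j ∈ range (2 ^ a), M.E (sl F (((2 ^ a : ℕ) : ℤ) + (j : ℤ)))| ≤ 2 ^ a * C := by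
    refine (Finset.abs_sum_le_sum_abs _ _).trans ?_
    refine (Finset.sum_le_sum fun j _ => M.abs_E_le (C := C) fun w => hF _).trans ?_
    rw [Finset.sum_const, Finset.card_range, nsmul_eq_mul]
    push_cast
    exact le_refl _
  calc 1 / (2 : ℝ) ^ a * |∑ j ∈ range (2 ^ a), M.E (sl F (((2 ^ a : ℕ) : ℤ) + (j : ℤ)))|
      ≤ 1 / (2 : ℝ) ^ a * (2 ^ a * C) := mul_le_mul_of_nonneg_left h1 (by positivity)
    _ = C := by rw [← mul_assoc, one_div, inv_mul_cancel₀ (by positivity), one_mul]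

theorem bl_shift (M : Mean D) (a : ℕ) {F : (Fin (D + 1) → ℤ) → ℝ} {C : ℝ}
    (hF : ∀ ω, |F ω| ≤ C) (v : Fin (D + 1) → ℤ) :
    |bl M a (fun ω => F (ω + v)) - bl M a F| ≤ (1 / (2 : ℝ) ^ a) * (2 * |(v 0 : ℝ)| * C) := by
  have hB : Bdd F := ⟨C, hF⟩
  have h1 : ∀ k : ℤ, M.E (sl (fun ω => F (ω + v)) k) = M.E (sl F (k + v 0)) := by
    intro k
    have h2 := M.shift (fun i => v i.succ) (sl F (k + v 0)) (bdd_sl hB _)
    rw [← h2]
    congr 1
    funext w
    unfold sl
    show F ((Fin.cons k w : Fin (D + 1) → ℤ) + v) = _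
    congr 1
    funext i
    refine Fin.cases ?_ (fun i => ?_) i
    · simp
    · simp
  unfold bl
  rw [← mul_sub, abs_mul, abs_of_nonneg (by positivity : (0 : ℝ) ≤ 1 / 2 ^ a)]
  refine mul_le_mul_of_nonneg_left ?_ (by positivity)
  simp only [h1]
  exact shift_int (fun k => M.E (sl F k)) C (fun k => M.abs_E_le fun w => hF _) _ _ _

/-! ### The limits -/

theorem lim_ex (M : Mean D) (n e : ℕ) {F : (Fin (D + 1) → ℤ) → ℝ} (hF : Bdd F) :
    Tendsto (fun T => bl M (n * T + e) F) (Filter.hyperfilter ℕ : Filter ℕ)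
      (𝓝 (limUnder (Filter.hyperfilter ℕ : Filter ℕ) (fun T => bl M (n * T + e) F))) := by
  obtain ⟨C, hC⟩ := hF
  exact tendsto_nhds_limUnder (exists_lim _ C fun T => abs_bl_le M _ hC)

/-- The mean on `ℤ ^ (D + 1)`. -/
noncomputable def MB (M : Mean D) (n e : ℕ) (hn : 0 < n) : Mean (D + 1) where
  E F := limUnder (Filter.hyperfilter ℕ : Filter ℕ) (fun T => bl M (n * T + e) F)
  add := by
    intro f g hf hg
    refine tendsto_nhds_unique (lim_ex M n e (bdd_add hf hg)) ?_
    refine ((lim_ex M n e hf).add (lim_ex M n e hg)).congr fun j => ?_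
    exact (bl_add M _ hf hg).symm
  smul := by
    intro c f hf
    refine tendsto_nhds_unique (lim_ex M n e (bdd_smul c hf)) ?_
    refine ((lim_ex M n e hf).const_mul c).congr fun j => ?_
    exact (bl_smul M _ c hf).symm
  nonneg := by
    intro f hf h0
    exact ge_of_tendsto' (lim_ex M n e hf) fun j => bl_nonneg M _ hf h0
  one := by
    refine tendsto_nhds_unique (lim_ex M n e (bdd_const 1)) ?_
    refine Tendsto.congr (fun j => (bl_one M _).symm) tendsto_const_nhds
  shift := by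
    intro v f hf
    obtain ⟨C, hC⟩ := hf
    have hf : Bdd f := ⟨C, hC⟩
    have hf' : Bdd (fun ω => f (ω + v)) := ⟨C, fun ω => hC _⟩
    have h0 : Tendsto (fun T : ℕ => (1 / (2 : ℝ) ^ (n * T + e)) * (2 * |(v 0 : ℝ)| * C)) atTop
        (𝓝 0) := by
      have h1 : Tendsto (fun T : ℕ => n * T + e) atTop atTop := by
        refine tendsto_atTop_mono (f := fun T : ℕ => T) (fun T => ?_) tendsto_id
        nlinarith
      have h2 : Tendsto (fun T : ℕ => (1 / 2 : ℝ) ^ (n * T + e)) atTop (𝓝 0) :=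
        (tendsto_pow_atTop_nhds_zero_of_lt_one (by norm_num) (by norm_num)).comp h1
      have h3 := h2.mul_const (2 * |(v 0 : ℝ)| * C)
      rw [zero_mul] at h3
      refine h3.congr fun T => ?_
      rw [one_div_pow]
    have h1 : Tendsto (fun T => bl M (n * T + e) (fun ω => f (ω + v)) - bl M (n * T + e) f) atTop
        (𝓝 0) := squeeze_zero_norm (fun T => by
          rw [Real.norm_eq_abs]; exact bl_shift M _ hC v) h0
    have h2 := (h1.mono_left hyp_le).add (lim_ex M n e hf)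
    rw [zero_add] at h2
    refine tendsto_nhds_unique (lim_ex M n e hf') (h2.congr fun T => ?_)
    ring

theorem MB_const (M : Mean D) (n e : ℕ) (hn : 0 < n) {F : (Fin (D + 1) → ℤ) → ℝ} (hF : Bdd F)
    (f : (Fin D → ℤ) → ℝ)
    (h : ∀ (T : ℕ) (k : ℤ), ((2 ^ (n * T + e) : ℕ) : ℤ) ≤ k →
      k < ((2 ^ (n * T + e + 1) : ℕ) : ℤ) → sl F k = f) :
    (MB M n e hn).E F = M.E f := by
  refine tendsto_nhds_unique (lim_ex M n e hF) ?_
  refine Tendsto.congr (fun T => (bl_const_of M _ F f (h T)).symm) tendsto_const_nhds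

/-- The average of finitely many means. -/
noncomputable def avM {d : ℕ} {ι : Type} [Fintype ι] [Nonempty ι] (M : ι → Mean d) : Mean d where
  E F := (1 / (Fintype.card ι : ℝ)) * ∑ i, (M i).E F
  add := by
    intro f g hf hg
    rw [← mul_add, ← Finset.sum_add_distrib]
    congr 1
    exact Finset.sum_congr rfl fun i _ => (M i).add f g hf hg
  smul := by
    intro c f hf
    have h : ∑ i, (M i).E (fun ω => c * f ω) = c * ∑ i, (M i).E f := by
      rw [Finset.mul_sum]
      exact Finset.sum_congr rfl fun i _ => (M i).smul c f hf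
    rw [h]
    ring
  nonneg := by
    intro f hf h0
    exact mul_nonneg (by positivity) (Finset.sum_nonneg fun i _ => (M i).nonneg f hf h0)
  one := by
    have h : ∀ i, (M i).E (fun _ => 1) = 1 := fun i => (M i).one
    simp only [h]
    rw [Finset.sum_const, Finset.card_univ, nsmul_eq_mul, mul_one, one_div]
    have : (Fintype.card ι : ℝ) ≠ 0 := by exact_mod_cast Fintype.card_ne_zero
    exact inv_mul_cancel₀ this
  shift := by
    intro v f hf
    congr 1
    exact Finset.sum_congr rfl fun i _ => (M i).shift v f hf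

/-! ### The theorem -/

theorem log_mod {n : ℕ} (T a : ℕ) (ha : a < n) (k : ℤ) (h1 : ((2 ^ (n * T + a) : ℕ) : ℤ) ≤ k)
    (h2 : k < ((2 ^ (n * T + a + 1) : ℕ) : ℤ)) : Nat.log 2 k.toNat % n = a := by
  have h3 : Nat.log 2 k.toNat = n * T + a := by
    rw [Nat.log_eq_iff (Or.inr ⟨by norm_num, by
      have : 0 < 2 ^ (n * T + a) := by positivity
      omega⟩)]
    constructor
    · omega
    · omega
  rw [h3, Nat.mul_add_mod, Nat.mod_eq_of_lt ha]

theorem pf_DSM (hDS : StatementDS) : K_DSM := by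
  classical
  obtain ⟨c₀, hc₀, H⟩ := hDS
  refine ⟨c₀, hc₀, ?_⟩
  intro D ι _ _ M A _ x e R θ m₀ hR hθ
  set n := Fintype.card ι with hn
  have hn0 : 0 < n := Fintype.card_pos
  have hnR : (0 : ℝ) < n := by exact_mod_cast hn0
  set ε : ι ≃ Fin n := Fintype.equivFin ι with hε
  set color : ℤ → ι := fun k => ε.symm ⟨Nat.log 2 k.toNat % n, Nat.mod_lt _ hn0⟩ with hcol
  have hcolor : ∀ (i : ι) (T : ℕ) (k : ℤ), ((2 ^ (n * T + (ε i : ℕ)) : ℕ) : ℤ) ≤ k →
      k < ((2 ^ (n * T + (ε i : ℕ) + 1) : ℕ) : ℤ) → color k = i := by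
    intro i T k h1 h2
    rw [hcol]
    show ε.symm _ = i
    rw [Equiv.symm_apply_eq]
    exact Fin.ext (log_mod T (ε i) (ε i).2 k h1 h2)
  set MM : Mean (D + 1) := avM (fun i => MB (M i) n (ε i) hn0) with hMM
  -- the means of the functions concentrated on one colour
  have key : ∀ (i : ι) (f : (Fin D → ℤ) → ℝ), Bdd f →
      MM.E (fun w => if color (w 0) = i then f (fun l => w l.succ) else 0) =
        (1 / (n : ℝ)) * (M i).E f := by
    intro i f hf
    have hF : Bdd (fun w : Fin (D + 1) → ℤ =>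
        if color (w 0) = i then f (fun l => w l.succ) else 0) := by
      obtain ⟨C, hC⟩ := hf
      refine ⟨C, fun w => ?_⟩
      show |if color (w 0) = i then f (fun l => w l.succ) else 0| ≤ C
      split_ifs
      · exact hC _
      · rw [abs_zero]; exact (abs_nonneg _).trans (hC 0)
    show (1 / (n : ℝ)) * ∑ i', (MB (M i') n (ε i') hn0).E
      (fun w => if color (w 0) = i then f (fun l => w l.succ) else 0) = _
    congr 1
    rw [Finset.sum_eq_single i]
    · refine MB_const (M i) n (ε i) hn0 hF f fun T k h1 h2 => ?_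
      funext w
      show (if color ((Fin.cons k w : Fin (D + 1) → ℤ) 0) = i then
        f (fun l => (Fin.cons k w : Fin (D + 1) → ℤ) l.succ) else 0) = f w
      rw [Fin.cons_zero, if_pos (hcolor i T k h1 h2)]
      congr 1
    · intro i' _ hi'
      rw [MB_const (M i') n (ε i') hn0 hF (fun _ => 0) fun T k h1 h2 => ?_]
      · exact (M i').E_const 0
      · funext w
        show (if color ((Fin.cons k w : Fin (D + 1) → ℤ) 0) = i then
          f (fun l => (Fin.cons k w : Fin (D + 1) → ℤ) l.succ) else 0) = 0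
        rw [Fin.cons_zero, hcolor i' T k h1 h2, if_neg hi']
    · intro h; exact absurd (Finset.mem_univ i) h
  obtain ⟨m, hm, hcard, hmain⟩ := H (D + 1) MM (A × ι) inferInstance
    (fun w => (x (fun l => w l.succ), color (w 0))) (Fin.cons 1 e) (R + 2) (θ / n) m₀
    (by omega) (by positivity)
  refine ⟨m, hm, hcard, ?_⟩
  intro i S g hg1 hg2
  have h := hmain (S.map (Fin.succEmb D))
    (fun p w => if color (w 0) = i then g p (fun l => w l.succ) else 0) ?_ ?_
  · have h1 : ∀ p ∈ Pset 1 m,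
        |(M i).E (fun ω => (p : ℝ) ^ S.card * (ind (∀ i ∈ S, (p : ℤ) ∣ ω i) * g p ω)) -
            (M i).E (g p)| = n *
        |MM.E (fun ω => (p : ℝ) ^ (S.map (Fin.succEmb D)).card *
          (ind (∀ i ∈ S.map (Fin.succEmb D), (p : ℤ) ∣ ω i) *
            (if color (ω 0) = i then g p (fun l => ω l.succ) else 0))) -
          MM.E (fun w => if color (w 0) = i then g p (fun l => w l.succ) else 0)| := by
      intro p hp
      have hb : Bdd (g p) := ⟨1, hg1 p hp⟩
      have hb2 : Bdd (fun ω => (p : ℝ) ^ S.card * (ind (∀ i ∈ S, (p : ℤ) ∣ ω i) * g p ω)) := by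
        refine ⟨(p : ℝ) ^ S.card, fun ω => ?_⟩
        rw [abs_mul, abs_of_nonneg (by positivity : (0 : ℝ) ≤ (p : ℝ) ^ S.card)]
        refine mul_le_of_le_one_right (by positivity) ?_
        rw [abs_mul]
        refine mul_le_one₀ ?_ (abs_nonneg _) (hg1 p hp ω)
        unfold ind
        split_ifs <;> simp
      have e1 : (fun ω : Fin (D + 1) → ℤ => (p : ℝ) ^ (S.map (Fin.succEmb D)).card *
          (ind (∀ i ∈ S.map (Fin.succEmb D), (p : ℤ) ∣ ω i) *
            (if color (ω 0) = i then g p (fun l => ω l.succ) else 0))) =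
          fun w => if color (w 0) = i then
            (fun ω => (p : ℝ) ^ S.card * (ind (∀ i ∈ S, (p : ℤ) ∣ ω i) * g p ω))
              (fun l => w l.succ) else 0 := by
        funext w
        have e2 : ind (∀ i ∈ S.map (Fin.succEmb D), (p : ℤ) ∣ w i) =
            ind (∀ i ∈ S, (p : ℤ) ∣ w i.succ) := by
          have e3 : (∀ i ∈ S.map (Fin.succEmb D), (p : ℤ) ∣ w i) ↔
              (∀ i ∈ S, (p : ℤ) ∣ w i.succ) := by
            constructor
            · intro h i hi
              exact h i.succ (Finset.mem_map.2 ⟨i, hi, rfl⟩)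
            · intro h i hi
              obtain ⟨i', hi', rfl⟩ := Finset.mem_map.1 hi
              exact h i' hi'
          rw [e3]
        rw [e2, Finset.card_map]
        split_ifs
        · rfl
        · rw [mul_zero, mul_zero]
      rw [e1, key i _ hb2, key i _ hb, ← mul_sub, abs_mul,
        abs_of_nonneg (by positivity : (0 : ℝ) ≤ 1 / (n : ℝ)), ← mul_assoc,
        mul_one_div_cancel hnR.ne', one_mul]
    rw [Finset.sum_congr rfl h1, ← Finset.mul_sum]
    calc (n : ℝ) * ∑ p ∈ Pset 1 m, _ ≤ n * (θ / n * ((Pset 1 m).card : ℝ)) :=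
          mul_le_mul_of_nonneg_left h hnR.le
      _ = θ * ((Pset 1 m).card : ℝ) := by field_simp
  · intro p hp ω
    show |if color (ω 0) = i then g p (fun l => ω l.succ) else 0| ≤ 1
    split_ifs
    · exact hg1 p hp _
    · simp
  · intro p hp ω ω' hx k hk
    have hp2 : p ≤ 2 ^ (m + 1) := by
      unfold Pset at hp
      exact (Finset.mem_Ioc.1 (Finset.mem_filter.1 hp).1).2
    have htail : ∀ (w : Fin (D + 1) → ℤ) (j : ℕ),
        (fun l : Fin D => (w + (j : ℤ) • (Fin.cons 1 e : Fin (D + 1) → ℤ)) l.succ) =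
          (fun l => w l.succ) + (j : ℤ) • e := by
      intro w j
      funext l
      simp
    have hzero : ∀ (w : Fin (D + 1) → ℤ) (j : ℕ),
        (w + (j : ℤ) • (Fin.cons 1 e : Fin (D + 1) → ℤ)) 0 = w 0 + j := by
      intro w j
      simp
    have hc : color (ω 0 + k 0) = color (ω' 0 + k 0) := by
      have hk0 := hk 0
      have hj : (k 0).toNat < (R + 2) * 2 ^ m := by
        have h3 : (k 0).toNat < p := by omega
        have h4 : 2 ^ (m + 1) ≤ (R + 2) * 2 ^ m := by
          rw [pow_succ, mul_comm]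
          exact Nat.mul_le_mul_right _ (by omega)
        omega
      have h5 := congrArg Prod.snd (hx (k 0).toNat hj)
      simp only [hzero] at h5
      rwa [Int.toNat_of_nonneg hk0.1] at h5
    have ht : g p ((fun l => ω l.succ) + (fun l => k l.succ)) =
        g p ((fun l => ω' l.succ) + (fun l => k l.succ)) := by
      refine hg2 p hp _ _ (fun j hj => ?_) _ (fun l => hk l.succ)
      have hpos : 0 < 2 ^ m := by positivity
      have h5 := congrArg Prod.fst (hx j (by nlinarith))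
      simp only [htail] at h5
      exact h5
    show (if color ((ω + k) 0) = i then g p (fun l => (ω + k) l.succ) else 0) =
      (if color ((ω' + k) 0) = i then g p (fun l => (ω' + k) l.succ) else 0)
    have e1 : (ω + k) 0 = ω 0 + k 0 := rfl
    have e2 : (ω' + k) 0 = ω' 0 + k 0 := rfl
    rw [e1, e2, hc]
    have e3 : (fun l : Fin D => (ω + k) l.succ) = (fun l => ω l.succ) + (fun l => k l.succ) := rfl
    have e4 : (fun l : Fin D => (ω' + k) l.succ) = (fun l => ω' l.succ) + (fun l => k l.succ) := rfl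
    rw [e3, e4, ht]

end Pool.Agent.H1.MKS
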